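import Pool.Agent.L0h48.LZ.Bil

/-!
# LZ, module AUT
-/

set_option autoImplicit false

namespace Pool.Agent.L0h48.LZ

open Pool.Agent.N165.KM (IntL)
open Pool.Agent.L0h18.LZ

variable {ρ : ℕ}

/-- an integral similitude has multiplier at least one -/
theorem one_le_mult {B : Matrix (Fin ρ) (Fin ρ) ℤ} {h : Fin ρ → ℝ} (hB : Lorentz B h)
    (U : (Fin ρ → ℝ) → (Fin ρ → ℝ)) (hU : ∀ x ∈ IntL ρ, U x ∈ IntL ρ) {l : ℝ} (hl : 0 < l)
    (hl' : ∀ x y, bil B (U x) (U y) = l * bil B x y) : 1 ≤ l := by
  obtain ⟨i, j, hij⟩ : ∃ i j, B i j ≠ 0 := by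
    by_contra hcon
    push Not at hcon
    have h1 := hB.pos
    unfold bil at h1
    have : ∑ i, ∑ j, ((B i j : ℤ) : ℝ) * h i * h j = 0 := by
      apply Finset.sum_eq_zero
      intro i _
      apply Finset.sum_eq_zero
      intro j _
      rw [hcon i j]; simp
    rw [this] at h1
    exact lt_irrefl _ h1
  have key : ∀ n : ℕ, ∃ x ∈ IntL ρ, ∃ y ∈ IntL ρ, bil B x y = l ^ n * (B i j : ℝ) := by
    intro n
    induction n with
    | zero =>
      exact ⟨Pi.single i 1, single_int i, Pi.single j 1, single_int j, by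
        rw [single_val, pow_zero, one_mul]⟩
    | succ n ih =>
      obtain ⟨x, hx, y, hy, hxy⟩ := ih
      refine ⟨U x, hU x hx, U y, hU y hy, ?_⟩
      rw [hl', hxy]
      ring
  by_contra hlt
  push Not at hlt
  have hlim := tendsto_pow_atTop_nhds_zero_of_lt_one hl.le hlt
  have hlim2 := (hlim.mul_const |(B i j : ℝ)|)
  rw [zero_mul] at hlim2
  obtain ⟨n, hn⟩ := (hlim2.eventually (gt_mem_nhds (zero_lt_one' ℝ))).exists
  obtain ⟨x, hx, y, hy, hxy⟩ := key n
  obtain ⟨m, hm⟩ := int_val B hx hy
  have hBij : (B i j : ℝ) ≠ 0 := by exact_mod_cast hij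
  have h1 : |(m : ℝ)| < 1 := by
    rw [← hm, hxy, abs_mul, abs_of_pos (pow_pos hl n)]
    exact hn
  have h2 : m = 0 := by
    have : |m| < 1 := by exact_mod_cast h1
    exact Int.abs_lt_one_iff.1 this
  rw [h2, Int.cast_zero] at hm
  rw [hm] at hxy
  exact (mul_ne_zero (pow_ne_zero n hl.ne') hBij) hxy.symm

theorem aut : S_AUT := by
  intro hS ρ B h hB T hT1 hT2 hTP
  obtain ⟨a1, a2, a3, a4, b1, b2, b3, a5, a6, b4, b5, a7, a8, b6, b7, b8⟩ := hS ρ B h hB
  have hTh := (hTP h).2 (h_mem hB)
  -- `T` preserves the closed cone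
  have hTN : ∀ x ∈ ncone B h, T x ∈ ncone B h := by
    intro x hx
    rw [← b2] at hx ⊢
    have hcont : Continuous T := T.toContinuousLinearEquiv.continuous
    exact map_mem_closure hcont hx (fun y hy => (hTP y).2 hy)
  have hT0 : ∀ x ∈ ncone B h, x ∉ pcone B h → bil B (T x) (T x) = 0 := by
    intro x hx hxp
    exact iso_of hB hS (hTN x hx) (fun h1 => hxp ((hTP x).1 h1))
  set q := bil B h h with hq
  have hq0 : 0 < q := hB.pos
  set l : ℝ := bil B (T h) (T h) / q with hl
  have hl0 : 0 < l := div_pos hTh.1 hq0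
  have hlq : bil B (T h) (T h) = l * q := by rw [hl]; field_simp
  -- vectors orthogonal to `h`
  have horth : ∀ x, bil B x h = 0 → bil B (T h) (T x) = 0 ∧ bil B (T x) (T x) = l * bil B x x := by
    intro x hx
    by_cases hx0 : x = 0
    · rw [hx0, map_zero]
      simp only [zero_r, mul_zero, and_self]
    have hxx := hB.neg x hx hx0
    -- scale
    set r : ℝ := Real.sqrt (q / (-bil B x x)) with hr
    have hr2 : r ^ 2 = q / (-bil B x x) := Real.sq_sqrt (by
      apply div_nonneg hq0.le; linarith)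
    have hr0 : 0 < r := Real.sqrt_pos.2 (by apply div_pos hq0; linarith)
    have hrx : r ^ 2 * bil B x x = -q := by
      rw [hr2]
      have : bil B x x ≠ 0 := hxx.ne
      field_simp
    have hmem : ∀ s : ℝ, s ^ 2 = r ^ 2 → bil B (T (h + s • x)) (T (h + s • x)) = 0 := by
      intro s hs
      have e1 : bil B (h + s • x) (h + s • x) = 0 := by
        simp only [add_l, add_r, smul_l, smul_r]
        rw [symm' hB h x, hx, ← hq]
        have : s ^ 2 * bil B x x = -q := by rw [hs, hrx]
        linear_combination this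
      apply hT0
      · refine ⟨e1.ge, ?_⟩
        simp only [add_l, smul_l]
        rw [hx, ← hq, mul_zero, add_zero]
        exact hq0.le
      · rintro ⟨h1, -⟩
        rw [e1] at h1
        exact lt_irrefl _ h1
    have h1 := hmem r rfl
    have h2 := hmem (-r) (by ring)
    simp only [map_add, map_smul, add_l, add_r, smul_l, smul_r] at h1 h2
    rw [symm' hB (T x) (T h)] at h1 h2
    have h3 : r * bil B (T h) (T x) = 0 := by linarith
    have h4 : bil B (T h) (T x) = 0 := by
      rcases mul_eq_zero.1 h3 with h5 | h5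
      · exact absurd h5 hr0.ne'
      · exact h5
    refine ⟨h4, ?_⟩
    rw [h4] at h1
    have h5 : r ^ 2 * bil B (T x) (T x) = r ^ 2 * (l * bil B x x) := by
      have e2 : r ^ 2 * (l * bil B x x) = l * (r ^ 2 * bil B x x) := by ring
      rw [e2, hrx]
      linear_combination h1 - hlq
    exact mul_left_cancel₀ (pow_ne_zero 2 hr0.ne') h5
  -- all vectors
  have hall : ∀ y, bil B (T y) (T y) = l * bil B y y := by
    intro y
    set s : ℝ := bil B y h / q with hs
    set x := y - s • h with hx
    have hy : y = s • h + x := by rw [hx]; abel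
    have hxh : bil B x h = 0 := by
      rw [hx, sub_l, smul_l, hs, ← hq]
      field_simp
      ring
    obtain ⟨o1, o2⟩ := horth x hxh
    rw [hy]
    simp only [map_add, map_smul, add_l, add_r, smul_l, smul_r]
    rw [symm' hB (T x) (T h), o1, o2, symm' hB h x, hxh, hlq, ← hq]
    ring
  have hpol : ∀ x y, bil B (T x) (T y) = l * bil B x y := by
    intro x y
    have h1 := hall (x + y)
    simp only [map_add, add_l, add_r] at h1
    rw [hall x, hall y, symm' hB (T y) (T x), symm' hB y x] at h1
    linarith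
  have hl1 := one_le_mult hB T hT1 hl0 hpol
  have hl2 := one_le_mult hB T.symm hT2 (inv_pos.2 hl0) (by
    intro x y
    have := hpol (T.symm x) (T.symm y)
    rw [T.apply_symm_apply, T.apply_symm_apply] at this
    rw [this]
    field_simp)
  have hl3 : l = 1 := by
    apply le_antisymm _ hl1
    have := inv_le_one_of_one_le₀ hl2
    rwa [inv_inv] at this
  refine ⟨hT1, hT2, fun x y => ?_, hTh.2⟩
  rw [hpol, hl3, one_mul]

end Pool.Agent.L0h48.LZ
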