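import Pool.Agent.L0h48.LZ.Bil

/-!
# LZ, module CUSP
-/

set_option autoImplicit false

namespace Pool.Agent.L0h48.LZ

open Pool.Agent.Y167 (cone mem_cone_self)
open Pool.Agent.N165.KM (IntL)
open Pool.Agent.L0h18.LZ

theorem cusp : S_CUSP := by
  classical
  intro hS ρ B h hB 𝒢 h𝒢 E hPE hEN hEs S hSint hE e he
  obtain ⟨a1, a2, a3, a4, -, -, -, -, -, -, -, -, -, b6, b7, b8⟩ := hS ρ B h hB
  by_contra hne
  obtain ⟨heI, he0, heN⟩ := he
  have heP : e ∉ pcone B h := fun h1 => hne (hPE h1)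
  have hee : bil B e e = 0 := iso_of hB hS heN heP
  have hβ : 0 < bil B e h := by
    rw [symm' hB]
    exact a1 h (h_mem hB) e heN he0
  set β := bil B e h with hβd
  set S' := S.erase 0 with hS'
  set M : ℝ := ∑ s ∈ S', ∑ s' ∈ S', |bil B s s'| with hM
  have hM0 : 0 ≤ M := Finset.sum_nonneg fun _ _ => Finset.sum_nonneg fun _ _ => abs_nonneg _
  set t : ℝ := 1 / ((M + 1) * β) with ht
  have ht0 : 0 < t := by positivity
  have hy : e + t • h ∈ pcone B h := by
    refine ⟨?_, ?_⟩
    · simp only [add_l, add_r, smul_l, smul_r, hee]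
      rw [symm' hB h e, ← hβd]
      have := hB.pos
      positivity
    · simp only [add_l, smul_l]
      rw [← hβd]
      have := hB.pos
      positivity
  have hyE := hPE hy
  rw [hE, Set.mem_iUnion₂] at hyE
  obtain ⟨T, hT, z, ⟨c, hc, hz⟩, hTz⟩ := hyE
  have hTI := h𝒢 hT
  obtain ⟨t1, t2, t3, t4⟩ := hTI
  set e' := T.symm e with he'
  have hTe' : T e' = e := T.apply_symm_apply e
  have he'I : e' ∈ IntL ρ := t2 e heI
  have he'N : e' ∈ ncone B h := by
    rw [← (b6 T (h𝒢 hT)).2, hTe']; exact heN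
  have he'0 : e' ≠ 0 := by
    intro h1
    rw [h1, map_zero] at hTe'
    exact he0 hTe'.symm
  have hz' : z = ∑ s ∈ S', c s • s := by
    rw [hz, hS']
    by_cases h0 : (0 : Fin ρ → ℝ) ∈ S
    · rw [← Finset.add_sum_erase _ _ h0, smul_zero, zero_add]
    · rw [Finset.erase_eq_of_notMem h0]
  have hsE : ∀ s ∈ S, T s ∈ E := by
    intro s hs
    rw [hE, Set.mem_iUnion₂]
    exact ⟨T, hT, s, mem_cone_self hs, rfl⟩
  have hone : ∀ s ∈ S', 1 ≤ bil B e' s := by
    intro s hs
    rw [hS', Finset.mem_erase] at hs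
    have hsN : s ∈ ncone B h := by
      rw [← (b6 T (h𝒢 hT)).2]
      exact hEN (hsE s hs.2)
    have hnn := a2 e' he'N s hsN
    obtain ⟨m, hm⟩ := int_val B he'I (hSint s hs.2)
    by_cases h0 : bil B e' s = 0
    · exfalso
      obtain ⟨l, hl, hsl⟩ := a3 e' he'N s hsN he'0 h0
      have hl0 : l ≠ 0 := by
        rintro rfl
        rw [zero_smul] at hsl
        exact hs.1 hsl
      have h1 := hsE s hs.2
      rw [hsl, map_smul, hTe'] at h1
      have h2 := hEs l⁻¹ (by positivity) _ h1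
      rw [smul_smul, inv_mul_cancel₀ hl0, one_smul] at h2
      exact hne h2
    · have hm1 : (0 : ℝ) < m := by
        rw [← hm]
        exact lt_of_le_of_ne hnn (Ne.symm h0)
      have hm2 : (0 : ℤ) < m := by exact_mod_cast hm1
      have hm3 : (1 : ℤ) ≤ m := hm2
      rw [hm]
      exact_mod_cast hm3
  set σ : ℝ := ∑ s ∈ S', c s with hσ
  have hσ0 : 0 ≤ σ := Finset.sum_nonneg fun s _ => hc s
  have k1 : bil B e' z = t * β := by
    rw [← t3, hTe', hTz]
    simp only [add_r, smul_r, hee]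
    ring
  have k2 : σ ≤ t * β := by
    rw [← k1, hz', sum_r]
    apply Finset.sum_le_sum
    intro s hs
    rw [smul_r]
    have := mul_le_mul_of_nonneg_left (hone s hs) (hc s)
    linarith
  have k3 : bil B z z = bil B (e + t • h) (e + t • h) := by
    rw [← hTz, t3]
  have k4 : 2 * t * β ≤ bil B z z := by
    rw [k3]
    simp only [add_l, add_r, smul_l, smul_r, hee]
    rw [symm' hB h e, ← hβd]
    have := hB.pos
    have h2 : 0 ≤ t * (t * bil B h h) := by positivity
    linarith
  have k5 : bil B z z ≤ M * σ ^ 2 := by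
    have hcs : ∀ s ∈ S', c s ≤ σ := fun s hs =>
      Finset.single_le_sum (f := c) (fun s _ => hc s) hs
    rw [hz', sum_l, hM, Finset.sum_mul]
    apply Finset.sum_le_sum
    intro s hs
    rw [sum_r, Finset.sum_mul]
    apply Finset.sum_le_sum
    intro s' hs'
    rw [smul_l, smul_r]
    calc c s * (c s' * bil B s s') ≤ c s * (c s' * |bil B s s'|) := by
          apply mul_le_mul_of_nonneg_left _ (hc s)
          exact mul_le_mul_of_nonneg_left (le_abs_self _) (hc s')
      _ = |bil B s s'| * (c s * c s') := by ring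
      _ ≤ |bil B s s'| * σ ^ 2 := by
          apply mul_le_mul_of_nonneg_left _ (abs_nonneg _)
          rw [pow_two]
          exact mul_le_mul (hcs s hs) (hcs s' hs') (hc s') hσ0
  have k6 : M * σ ^ 2 ≤ M * (t * β) ^ 2 := by
    apply mul_le_mul_of_nonneg_left _ hM0
    exact pow_le_pow_left₀ hσ0 k2 2
  have k7 : t * β = 1 / (M + 1) := by
    rw [ht]
    field_simp
  have k8 : 2 * (t * β) ≤ M * (t * β) ^ 2 := by linarith
  rw [k7] at k8
  have hM1 : 0 < M + 1 := by linarith
  have k9 : M * (1 / (M + 1)) ^ 2 ≤ 1 / (M + 1) := by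
    rw [div_pow, one_pow, mul_one_div, div_le_div_iff₀ (by positivity) hM1]
    nlinarith
  have k10 : 0 < 1 / (M + 1) := by positivity
  linarith

end Pool.Agent.L0h48.LZ
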