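import Pool.Agent.L0h18.LZ.Defs
import Pool.Agent.Y167.Cone

/-!
# LZ: the form as a bilinear map
-/

set_option autoImplicit false

namespace Pool.Agent.L0h48.LZ

open Pool.Agent.Y167 (cone)
open Pool.Agent.N165.KM (IntL)
open Pool.Agent.L0h18.LZ

variable {ρ : ℕ}

/-- the form as a bilinear map -/
def bl (B : Matrix (Fin ρ) (Fin ρ) ℤ) : (Fin ρ → ℝ) →ₗ[ℝ] (Fin ρ → ℝ) →ₗ[ℝ] ℝ :=
  LinearMap.mk₂ ℝ (bil B)
    (by
      intro x y z
      unfold bil
      rw [← Finset.sum_add_distrib]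
      refine Finset.sum_congr rfl fun i _ => ?_
      rw [← Finset.sum_add_distrib]
      refine Finset.sum_congr rfl fun j _ => ?_
      rw [Pi.add_apply]; ring)
    (by
      intro c x y
      unfold bil
      rw [smul_eq_mul, Finset.mul_sum]
      refine Finset.sum_congr rfl fun i _ => ?_
      rw [Finset.mul_sum]
      refine Finset.sum_congr rfl fun j _ => ?_
      rw [Pi.smul_apply, smul_eq_mul]; ring)
    (by
      intro x y z
      unfold bil
      rw [← Finset.sum_add_distrib]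
      refine Finset.sum_congr rfl fun i _ => ?_
      rw [← Finset.sum_add_distrib]
      refine Finset.sum_congr rfl fun j _ => ?_
      rw [Pi.add_apply]; ring)
    (by
      intro c x y
      unfold bil
      rw [smul_eq_mul, Finset.mul_sum]
      refine Finset.sum_congr rfl fun i _ => ?_
      rw [Finset.mul_sum]
      refine Finset.sum_congr rfl fun j _ => ?_
      rw [Pi.smul_apply, smul_eq_mul]; ring)

theorem bl_apply (B : Matrix (Fin ρ) (Fin ρ) ℤ) (x y : Fin ρ → ℝ) : bil B x y = bl B x y := rfl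

section

variable (B : Matrix (Fin ρ) (Fin ρ) ℤ)

theorem add_l (x y z : Fin ρ → ℝ) : bil B (x + y) z = bil B x z + bil B y z := by
  simp only [bl_apply, map_add, LinearMap.add_apply]

theorem add_r (x y z : Fin ρ → ℝ) : bil B x (y + z) = bil B x y + bil B x z := by
  simp only [bl_apply, map_add]

theorem sub_l (x y z : Fin ρ → ℝ) : bil B (x - y) z = bil B x z - bil B y z := by
  simp only [bl_apply, map_sub, LinearMap.sub_apply]

theorem sub_r (x y z : Fin ρ → ℝ) : bil B x (y - z) = bil B x y - bil B x z := by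
  simp only [bl_apply, map_sub]

theorem smul_l (c : ℝ) (x y : Fin ρ → ℝ) : bil B (c • x) y = c * bil B x y := by
  simp only [bl_apply, map_smul, LinearMap.smul_apply, smul_eq_mul]

theorem smul_r (c : ℝ) (x y : Fin ρ → ℝ) : bil B x (c • y) = c * bil B x y := by
  simp only [bl_apply, map_smul, smul_eq_mul]

theorem neg_l (x y : Fin ρ → ℝ) : bil B (-x) y = -bil B x y := by
  simp only [bl_apply, map_neg, LinearMap.neg_apply]

theorem neg_r (x y : Fin ρ → ℝ) : bil B x (-y) = -bil B x y := by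
  simp only [bl_apply, map_neg]

theorem zero_l (y : Fin ρ → ℝ) : bil B 0 y = 0 := by
  simp only [bl_apply, map_zero, LinearMap.zero_apply]

theorem zero_r (y : Fin ρ → ℝ) : bil B y 0 = 0 := by
  simp only [bl_apply, map_zero]

theorem sum_r {ι : Type*} (s : Finset ι) (f : ι → Fin ρ → ℝ) (x : Fin ρ → ℝ) :
    bil B x (∑ i ∈ s, f i) = ∑ i ∈ s, bil B x (f i) := by
  simp only [bl_apply, map_sum]

theorem sum_l {ι : Type*} (s : Finset ι) (f : ι → Fin ρ → ℝ) (x : Fin ρ → ℝ) :
    bil B (∑ i ∈ s, f i) x = ∑ i ∈ s, bil B (f i) x := by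
  simp only [bl_apply, map_sum, LinearMap.sum_apply]

theorem int_val {x y : Fin ρ → ℝ} (hx : x ∈ IntL ρ) (hy : y ∈ IntL ρ) :
    ∃ m : ℤ, bil B x y = m := by
  choose a ha using hx
  choose b hb using hy
  refine ⟨∑ i, ∑ j, B i j * a i * b j, ?_⟩
  unfold bil
  push_cast
  refine Finset.sum_congr rfl fun i _ => Finset.sum_congr rfl fun j _ => ?_
  rw [ha, hb]

theorem single_val (i j : Fin ρ) : bil B (Pi.single i 1) (Pi.single j 1) = B i j := by
  classical
  unfold bil
  rw [Finset.sum_eq_single i, Finset.sum_eq_single j]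
  · simp
  · intro b _ hb
    rw [Pi.single_eq_of_ne hb]; ring
  · intro h; exact absurd (Finset.mem_univ _) h
  · intro b _ hb
    apply Finset.sum_eq_zero
    intro c _
    rw [Pi.single_eq_of_ne hb]; ring
  · intro h; exact absurd (Finset.mem_univ _) h

end

theorem symm' {B : Matrix (Fin ρ) (Fin ρ) ℤ} {h : Fin ρ → ℝ} (hB : Lorentz B h)
    (x y : Fin ρ → ℝ) : bil B x y = bil B y x := by
  unfold bil
  rw [Finset.sum_comm]
  refine Finset.sum_congr rfl fun i _ => Finset.sum_congr rfl fun j _ => ?_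
  rw [hB.symm j i]; ring

theorem single_int (i : Fin ρ) : (Pi.single i 1 : Fin ρ → ℝ) ∈ IntL ρ := by
  intro j
  by_cases hij : j = i
  · subst hij; exact ⟨1, by simp⟩
  · exact ⟨0, by simp [hij]⟩

theorem h_mem {B : Matrix (Fin ρ) (Fin ρ) ℤ} {h : Fin ρ → ℝ} (hB : Lorentz B h) :
    h ∈ pcone B h := ⟨hB.pos, hB.pos⟩

theorem smul_n {B : Matrix (Fin ρ) (Fin ρ) ℤ} {h : Fin ρ → ℝ} {t : ℝ} (ht : 0 ≤ t)
    {x : Fin ρ → ℝ} (hx : x ∈ ncone B h) : t • x ∈ ncone B h := by
  obtain ⟨h1, h2⟩ := hx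
  refine ⟨?_, ?_⟩
  · rw [smul_l, smul_r]; positivity
  · rw [smul_l]; positivity

theorem p_sub_n {B : Matrix (Fin ρ) (Fin ρ) ℤ} {h : Fin ρ → ℝ} : pcone B h ⊆ ncone B h :=
  fun _ hx => ⟨hx.1.le, hx.2.le⟩

/-- a vector of `N` which is not in `P` is isotropic -/
theorem iso_of {B : Matrix (Fin ρ) (Fin ρ) ℤ} {h : Fin ρ → ℝ} (hB : Lorentz B h)
    (hS : S_BAS) {x : Fin ρ → ℝ} (hx : x ∈ ncone B h) (hxp : x ∉ pcone B h) : bil B x x = 0 := by
  by_cases h0 : x = 0
  · rw [h0, zero_l]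
  · obtain ⟨a1, -⟩ := hS ρ B h hB
    have h1 := a1 h (h_mem hB) x hx h0
    rw [symm' hB] at h1
    by_contra h2
    exact hxp ⟨lt_of_le_of_ne hx.1 (Ne.symm h2), h1⟩

end Pool.Agent.L0h48.LZ
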